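import Mathlib

set_option autoImplicit false

/-! The sequences `⌊t 2^n⌋` which are complete (helper634). -/

namespace Pool.Agent.Results.MP_0ff3a5_nt.LineTwo

/-- the set of the values `⌊t α^n⌋` -/
def seqSet (t α : ℝ) : Set ℤ := {m | ∃ n : ℕ, m = ⌊t * α ^ n⌋}

/-- every large integer is a sum of distinct elements of `A` -/
def Complete (A : Set ℤ) : Prop :=
  ∃ N : ℤ, ∀ m ≥ N, ∃ F : Finset ℤ, (F : Set ℤ) ⊆ A ∧ ∑ a ∈ F, a = m

private lemma step (t : ℝ) (n : ℕ) : 2 * ⌊t * 2 ^ n⌋ ≤ ⌊t * 2 ^ (n + 1)⌋ ∧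
    ⌊t * 2 ^ (n + 1)⌋ ≤ 2 * ⌊t * 2 ^ n⌋ + 1 := by
  have h1 := Int.floor_le (t * 2 ^ n)
  have h2 := Int.lt_floor_add_one (t * 2 ^ n)
  have e : t * 2 ^ (n + 1) = 2 * (t * 2 ^ n) := by ring
  constructor
  · rw [Int.le_floor, e]
    push_cast
    linarith
  · rw [← Int.lt_add_one_iff, Int.floor_lt, e]
    push_cast
    linarith

private lemma mono (t : ℝ) (ht : 0 < t) : Monotone (fun n : ℕ => ⌊t * 2 ^ n⌋) := by
  apply monotone_nat_of_le_succ
  intro n
  have h1 : 0 ≤ ⌊t * 2 ^ n⌋ := Int.floor_nonneg.2 (by positivity)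
  have := (step t n).1
  linarith

private lemma dmono (t : ℝ) : Monotone (fun n : ℕ => ⌊t * 2 ^ n⌋ -
    ∑ i ∈ Finset.range n, ⌊t * 2 ^ i⌋) := by
  apply monotone_nat_of_le_succ
  intro n
  rw [Finset.sum_range_succ]
  have := (step t n).1
  linarith

private lemma main (t : ℝ) (ht : 0 < t) (hc : Complete (seqSet t 2)) (n : ℕ) :
    ⌊t * 2 ^ n⌋ - ∑ i ∈ Finset.range n, ⌊t * 2 ^ i⌋ ≤ 1 := by
  classical
  by_contra hD
  push Not at hD
  obtain ⟨N, hN⟩ := hc
  obtain ⟨j, hj⟩ : ∃ j : ℕ, ((N : ℝ) + 1) / t < 2 ^ j :=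
    pow_unbounded_of_one_lt _ (by norm_num)
  have hj' : N + 1 ≤ ⌊t * 2 ^ j⌋ := by
    rw [Int.le_floor]
    rw [div_lt_iff₀ ht] at hj
    push_cast
    linarith
  set k := max n j with hk
  have h1 : N + 1 ≤ ⌊t * 2 ^ k⌋ := hj'.trans (mono t ht (le_max_right n j))
  have h2 : (1 : ℤ) < ⌊t * 2 ^ k⌋ - ∑ i ∈ Finset.range k, ⌊t * 2 ^ i⌋ :=
    hD.trans_le (dmono t (le_max_left n j))
  obtain ⟨F, hF, hs⟩ := hN (⌊t * 2 ^ k⌋ - 1) (by linarith)
  have hpos : ∀ i : ℕ, 0 ≤ ⌊t * 2 ^ i⌋ := fun i => Int.floor_nonneg.2 (by positivity)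
  have hFpos : ∀ a ∈ F, 0 ≤ a := by
    intro a ha
    obtain ⟨i, hi⟩ := hF ha
    rw [hi]; exact hpos i
  have hsub : F ⊆ (Finset.range k).image (fun i => ⌊t * 2 ^ i⌋) := by
    intro a ha
    obtain ⟨i, hi⟩ := hF ha
    rw [Finset.mem_image]
    refine ⟨i, ?_, hi.symm⟩
    rw [Finset.mem_range]
    by_contra hik
    push Not at hik
    have h3 : a ≤ ∑ a ∈ F, a := Finset.single_le_sum (f := fun a => a) hFpos ha
    have h4 : ⌊t * 2 ^ k⌋ ≤ ⌊t * 2 ^ i⌋ := mono t ht hik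
    rw [hs, hi] at h3
    linarith
  have h5 : ∑ a ∈ F, a ≤ ∑ i ∈ Finset.range k, ⌊t * 2 ^ i⌋ := by
    refine (Finset.sum_le_sum_of_subset_of_nonneg hsub (fun a ha _ => ?_)).trans ?_
    · rw [Finset.mem_image] at ha
      obtain ⟨i, _, rfl⟩ := ha
      exact hpos i
    · refine Finset.sum_image_le_of_nonneg (fun a ha => ?_)
      obtain ⟨i, _, rfl⟩ := Finset.mem_image.1 ha
      exact hpos i
  rw [hs] at h5
  linarith

/-- `⌊t 2^n⌋` is complete if and only if `t` is `2^(-k)` for some natural number `k`. -/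
theorem result (t : ℝ) (ht : 0 < t) :
    Complete (seqSet t 2) ↔ ∃ k : ℕ, t = ((2 : ℝ) ^ k)⁻¹ := by
  classical
  constructor
  · intro hc
    have hpos : ∀ i : ℕ, 0 ≤ ⌊t * 2 ^ i⌋ := fun i => Int.floor_nonneg.2 (by positivity)
    have hex : ∃ n : ℕ, 1 ≤ ⌊t * 2 ^ n⌋ := by
      obtain ⟨j, hj⟩ : ∃ j : ℕ, 1 / t < 2 ^ j := pow_unbounded_of_one_lt _ (by norm_num)
      refine ⟨j, ?_⟩
      rw [Int.le_floor]
      rw [div_lt_iff₀ ht] at hj
      push_cast
      linarith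
    set n := Nat.find hex with hn
    have h1 : 1 ≤ ⌊t * 2 ^ n⌋ := Nat.find_spec hex
    have h0 : ∑ i ∈ Finset.range n, ⌊t * 2 ^ i⌋ = 0 := by
      refine Finset.sum_eq_zero (fun i hi => ?_)
      have := Nat.find_min hex (Finset.mem_range.1 hi)
      have := hpos i
      omega
    have hD : ∀ j : ℕ, ⌊t * 2 ^ (n + j)⌋ - ∑ i ∈ Finset.range (n + j), ⌊t * 2 ^ i⌋ = 1 := by
      intro j
      have h2 := main t ht hc (n + j)
      have h3 := dmono t (Nat.le_add_right n j)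
      simp only at h3
      rw [h0] at h3
      linarith
    have ha : ∀ j : ℕ, ⌊t * 2 ^ (n + j)⌋ = 2 ^ j := by
      intro j
      induction j with
      | zero =>
        have := hD 0
        rw [Nat.add_zero, h0] at this
        simpa using this
      | succ j ih =>
        have e1 := hD (j + 1)
        have e2 := hD j
        rw [← Nat.add_assoc, Finset.sum_range_succ] at e1
        have e3 : (2 : ℤ) ^ (j + 1) = 2 ^ j * 2 := pow_succ _ _
        rw [← Nat.add_assoc, e3]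
        linarith
    refine ⟨n, ?_⟩
    have hlow : 1 ≤ t * 2 ^ n := by
      have := Int.floor_le (t * 2 ^ n)
      have h2 : (1 : ℝ) ≤ (⌊t * 2 ^ n⌋ : ℝ) := by exact_mod_cast h1
      linarith
    have hup : t * 2 ^ n ≤ 1 := by
      by_contra hlt
      push Not at hlt
      obtain ⟨j, hj⟩ : ∃ j : ℕ, 1 / (t * 2 ^ n - 1) < 2 ^ j :=
        pow_unbounded_of_one_lt _ (by norm_num)
      rw [div_lt_iff₀ (by linarith)] at hj
      have h3 := Int.lt_floor_add_one (t * 2 ^ (n + j))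
      rw [ha j] at h3
      push_cast at h3
      have e : t * 2 ^ (n + j) = 2 ^ j * (t * 2 ^ n - 1) + 2 ^ j := by ring
      linarith
    have : t * 2 ^ n = 1 := le_antisymm hup hlow
    exact eq_inv_of_mul_eq_one_left this
  · rintro ⟨k, rfl⟩
    refine ⟨0, fun m hm => ?_⟩
    obtain ⟨m, rfl⟩ := Int.eq_ofNat_of_zero_le hm
    refine ⟨(m.bitIndices.toFinset).image (fun i => (2 : ℤ) ^ i), ?_, ?_⟩
    · intro a ha
      simp only [Finset.coe_image, Set.mem_image] at ha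
      obtain ⟨i, _, rfl⟩ := ha
      refine ⟨i + k, ?_⟩
      have : ((2 : ℝ) ^ k)⁻¹ * 2 ^ (i + k) = ((2 ^ i : ℤ) : ℝ) := by
        push_cast
        rw [pow_add]
        field_simp
      rw [this, Int.floor_intCast]
    · rw [Finset.sum_image (fun i _ j _ h => by
        exact Int.pow_right_injective (by norm_num) h)]
      have := Finset.sum_toFinset_bitIndices_two_pow m
      exact_mod_cast this

end Pool.Agent.Results.MP_0ff3a5_nt.LineTwo
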